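import Pool.Agent.W601.SQ.Stm

/-!
# Elementary facts
-/

set_option autoImplicit false

namespace Pool.Agent.W451.SQ

open Pool.Agent.W601.SQ
open Filter Topology

theorem cx_add (x y : ℝ) : cx (x + y) = cx x * cx y := by
  unfold cx
  rw [mul_add, Circle.exp_add]

theorem cx_zero : cx 0 = 1 := by
  unfold cx
  rw [mul_zero, Circle.exp_zero]

theorem cx_neg (x : ℝ) : cx (-x) = (cx x)⁻¹ := by
  rw [eq_inv_iff_mul_eq_one, ← cx_add, neg_add_cancel, cx_zero]

theorem cx_eq_one (x : ℝ) : cx x = 1 ↔ ∃ n : ℤ, x = n := by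
  have h2 : (2 * Real.pi) ≠ 0 := by positivity
  rw [← cx_zero]
  unfold cx
  rw [Circle.exp_eq_exp]
  constructor
  · rintro ⟨m, hm⟩
    refine ⟨m, ?_⟩
    have h3 : 2 * Real.pi * x = 2 * Real.pi * m := by rw [hm]; ring
    exact mul_left_cancel₀ h2 h3
  · rintro ⟨m, rfl⟩
    exact ⟨m, by ring⟩

theorem cx_nat (n : ℕ) (y : ℝ) : cx ((n : ℝ) * y) = cx y ^ n := by
  induction n with
  | zero => simp [cx_zero]
  | succ k ih =>
    rw [pow_succ, ← ih, ← cx_add]
    congr 1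
    push_cast
    ring

theorem cx_int (n : ℤ) (y : ℝ) : cx ((n : ℝ) * y) = cx y ^ n := by
  cases n with
  | ofNat k =>
    rw [Int.ofNat_eq_natCast, zpow_natCast, Int.cast_natCast, cx_nat]
  | negSucc k =>
    rw [zpow_negSucc, ← cx_nat, ← cx_neg]
    congr 1
    push_cast
    ring

theorem cx_sum {ι : Type} (F : Finset ι) (g : ι → ℝ) :
    cx (∑ i ∈ F, g i) = ∏ i ∈ F, cx (g i) := by
  classical
  induction F using Finset.induction_on with
  | empty => simp [cx_zero]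
  | insert a F ha ih => rw [Finset.sum_insert ha, Finset.prod_insert ha, cx_add, ih]

theorem cx_dist (x y : ℝ) (h : nm (x - y) ≤ 1 / 8) : dist (cx x) (cx y) ≤ 9 / 10 := by
  unfold nm at h
  rw [UnitAddCircle.norm_eq] at h
  set r : ℝ := (x - y) - round (x - y) with hr
  have h1 : cx x = cx y * cx r := by
    have h2 : x = (y + r) + (round (x - y) : ℝ) := by rw [hr]; ring
    have h3 : cx ((round (x - y) : ℤ) : ℝ) = 1 := (cx_eq_one _).2 ⟨_, rfl⟩
    conv_lhs => rw [h2]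
    rw [cx_add, h3, mul_one, cx_add]
  have h4 : dist (cx x) (cx y) = ‖(cx r : ℂ) - 1‖ := by
    have h50 : dist (cx x) (cx y) = dist ((cx x : Circle) : ℂ) ((cx y : Circle) : ℂ) := rfl
    rw [h50, dist_eq_norm, h1, Circle.coe_mul]
    have h5 : (cx y : ℂ) * (cx r : ℂ) - (cx y : ℂ) = (cx y : ℂ) * ((cx r : ℂ) - 1) := by ring
    rw [h5, norm_mul, Circle.norm_coe, one_mul]
  rw [h4]
  have h6 : (cx r : ℂ) = Complex.exp (Complex.I * ((2 * Real.pi * r : ℝ) : ℂ)) := by
    unfold cx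
    rw [Circle.coe_exp, mul_comm]
  rw [h6]
  refine (Real.norm_exp_I_mul_ofReal_sub_one_le).trans ?_
  rw [Real.norm_eq_abs, abs_mul, abs_of_pos (by positivity : (0 : ℝ) < 2 * Real.pi)]
  have h7 : Real.pi < 3.15 := Real.pi_lt_d2
  have h8 : 0 < Real.pi := Real.pi_pos
  nlinarith [abs_nonneg r]

theorem ip_add {ι : Type} (m m' : ι →₀ ℤ) (y : ι → ℝ) : ip (m + m') y = ip m y + ip m' y := by
  unfold ip
  refine Finsupp.sum_add_index' (fun i => ?_) (fun i a b => ?_)
  · simp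
  · push_cast
    ring

theorem ip_zero {ι : Type} (y : ι → ℝ) : ip (0 : ι →₀ ℤ) y = 0 := by
  unfold ip
  exact Finsupp.sum_zero_index

theorem ip_single {ι : Type} (i : ι) (y : ι → ℝ) : ip (Finsupp.single i 1) y = y i := by
  unfold ip
  rw [Finsupp.sum_single_index] <;> simp

theorem gm_add (θ : ℝ → ℝ → ℝ) (m m' : ℝ →₀ ℤ) : gm θ (m + m') = gm θ m * gm θ m' := by
  funext β
  rw [Pi.mul_apply]
  unfold gm
  rw [ip_add, cx_add]

theorem gm_zero (θ : ℝ → ℝ → ℝ) : gm θ 0 = 1 := by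
  funext β
  unfold gm
  rw [ip_zero, cx_zero]
  rfl

theorem gm_neg (θ : ℝ → ℝ → ℝ) (m : ℝ →₀ ℤ) : gm θ (-m) = (gm θ m)⁻¹ := by
  rw [eq_inv_iff_mul_eq_one, ← gm_add, neg_add_cancel, gm_zero]

theorem mem_GG (θ : ℝ → ℝ → ℝ) (x : ℝ → Circle) : x ∈ GG θ ↔ ∃ m, gm θ m = x := by
  constructor
  · intro hx
    unfold GG at hx
    induction hx using Subgroup.closure_induction with
    | mem x hx => exact hx
    | one => exact ⟨0, gm_zero θ⟩
    | mul x y _ _ hx hy =>
      obtain ⟨a, rfl⟩ := hx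
      obtain ⟨b, rfl⟩ := hy
      exact ⟨a + b, gm_add θ a b⟩
    | inv x _ hx =>
      obtain ⟨a, rfl⟩ := hx
      exact ⟨-a, gm_neg θ a⟩
  · rintro ⟨m, rfl⟩
    exact Subgroup.subset_closure ⟨m, rfl⟩

theorem ch_cx {ι : Type} (s : ι →₀ ℤ) (y : ι → ℝ) : ch s (fun i => cx (y i)) = cx (ip s y) := by
  unfold ch ip Finsupp.prod Finsupp.sum
  rw [cx_sum]
  refine Finset.prod_congr rfl fun i _ => ?_
  rw [cx_int]

theorem alg : S_ALG := by
  refine ⟨cx_add, cx_eq_one, cx_dist, ?_, ?_, gm_add, mem_GG, ?_, ?_, ?_, ?_, ?_, ?_⟩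
  · unfold cx
    exact Circle.exp.continuous.comp (by fun_prop)
  · intro w
    refine ⟨Complex.arg (w : ℂ) / (2 * Real.pi), ?_⟩
    unfold cx
    have h2 : (2 * Real.pi) ≠ 0 := by positivity
    rw [mul_div_cancel₀ _ h2]
    exact Circle.exp_arg w
  · intro θ s m
    exact ch_cx s _
  · intro θ s α
    have h := ch_cx s (fun β => ip (Finsupp.single α 1) (fun α' => θ α' β))
    have h2 : (fun β => ip (Finsupp.single α (1 : ℤ)) (fun α' => θ α' β)) = θ α := by
      funext β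
      rw [ip_single]
    rw [h2] at h
    exact h
  · intro ι s s' x
    unfold ch
    refine Finsupp.prod_add_index' (fun i => ?_) (fun i a b => ?_)
    · simp
    · rw [zpow_add]
  · intro ι s x y
    unfold ch
    rw [← Finsupp.prod_mul]
    refine Finset.prod_congr rfl fun i _ => ?_
    show (x i * y i) ^ (s i) = x i ^ s i * y i ^ s i
    rw [mul_zpow]
  · intro ι s
    unfold ch Finsupp.prod
    refine continuous_finsetProd _ fun i _ => ?_
    exact (continuous_apply i).zpow (s i)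
  · intro ι i x
    unfold ch
    rw [Finsupp.prod_single_index] <;> simp

end Pool.Agent.W451.SQ
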